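import Pool.Agent.Helper37.RP.Pr3
import Pool.Agent.Helper47.NI.Defs

/-!
# The double coverings of `(1,1), (2,2)` in `P^2 × P^2` and of `(1,1), (1,1), (2,2)` in `P^3 × P^3`
-/

namespace Pool.Agent.Helper37.RP

open Matrix MvPolynomial
open Pool.Agent.Helper47.NI (Dbl)

universe u

variable {n : ℕ}

theorem onL_swap {R S : Type*} [CommRing R] [CommRing S] [Algebra R S]
    (L : Matrix (Fin n) (Fin n) R) (x y : Fin n → S) :
    OnL (fun i j => L j i) y x ↔ OnL L x y := by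
  unfold OnL
  rw [Finset.sum_comm]
  have e : ∀ i j, algebraMap R S (L i j) * (y j * x i) = algebraMap R S (L i j) * (x i * y j) :=
    fun i j => by ring
  rw [Finset.sum_congr rfl fun i _ => Finset.sum_congr rfl fun j _ => e i j]

theorem onQ_swap {R S : Type*} [CommRing R] [CommRing S] [Algebra R S]
    (Q : Fin n → Fin n → Fin n → Fin n → R) (x y : Fin n → S) :
    OnQ (fun i j k l => Q k l i j) y x ↔ OnQ Q x y := by
  unfold OnQ
  have e1 : ∀ f : Fin n → Fin n → Fin n → Fin n → S,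
      ∑ i, ∑ j, ∑ k, ∑ l, f i j k l = ∑ k, ∑ l, ∑ i, ∑ j, f i j k l := by
    intro f
    calc ∑ i, ∑ j, ∑ k, ∑ l, f i j k l = ∑ i, ∑ k, ∑ j, ∑ l, f i j k l :=
          Finset.sum_congr rfl fun i _ => Finset.sum_comm
      _ = ∑ k, ∑ i, ∑ j, ∑ l, f i j k l := Finset.sum_comm
      _ = ∑ k, ∑ i, ∑ l, ∑ j, f i j k l :=
          Finset.sum_congr rfl fun k _ => Finset.sum_congr rfl fun i _ => Finset.sum_comm
      _ = ∑ k, ∑ l, ∑ i, ∑ j, f i j k l := Finset.sum_congr rfl fun k _ => Finset.sum_comm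
  rw [e1]
  have e2 : ∀ i j k l, algebraMap R S (Q i j k l) * (y k * y l * (x i * x j)) =
      algebraMap R S (Q i j k l) * (x i * x j * (y k * y l)) := fun i j k l => by ring
  rw [Finset.sum_congr rfl fun i _ => Finset.sum_congr rfl fun j _ =>
    Finset.sum_congr rfl fun k _ => Finset.sum_congr rfl fun l _ => e2 i j k l]

/-- The two double coverings of the surface `L(x, y) = Q(x, y) = 0` in `P^2 × P^2`. -/
noncomputable def dbl3 {k : Type u} [Field k] [IsAlgClosed k] (L : Matrix (Fin 3) (Fin 3) k)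
    (Q : Fin 3 → Fin 3 → Fin 3 → Fin 3 → k) (hQ : ∀ i j k l, Q i j k l = Q j i k l)
    (hQ' : ∀ i j k l, Q i j k l = Q i j l k) : Dbl k 3 4 where
  G := fun p => chow3 L Q p.1 p.2
  G' := fun p => chow3 (fun i j => L j i) (fun i j k l => Q k l i j) p.1 p.2
  hG := fun p => isHomogeneous_chow3 L Q p.1 p.2
  hG' := fun p => isHomogeneous_chow3 _ _ p.1 p.2
  S := {z | z.1 ≠ 0 ∧ z.2 ≠ 0 ∧ OnL L z.1 z.2 ∧ OnQ Q z.1 z.2}
  ne1 := fun h => h.1
  ne2 := fun h => h.2.1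
  sx := by
    rintro x y ⟨hx, hy, h1, h2⟩ ⟨p, hp⟩
    obtain ⟨x', h3, h4, h5, h6⟩ := exists_other3 L Q hQ x y hx h1 h2 ⟨p.1, p.2, by
      rw [aeval_eq_eval]; exact hp⟩
    refine ⟨x', ⟨h3, hy, h4, h5⟩, fun p => ?_⟩
    have := h6 p.1 p.2
    rw [aeval_eq_eval] at this
    exact this
  sy := by
    rintro x y ⟨hx, hy, h1, h2⟩ ⟨p, hp⟩
    obtain ⟨y', h3, h4, h5, h6⟩ := exists_other3 (fun i j => L j i) (fun i j k l => Q k l i j)
      (fun i j k l => hQ' k l i j) y x hy ((onL_swap L x y).mpr h1) ((onQ_swap Q x y).mpr h2)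
      ⟨p.1, p.2, by rw [aeval_eq_eval]; exact hp⟩
    refine ⟨y', ⟨hx, h3, (onL_swap L x y').mp h4, (onQ_swap Q x y').mp h5⟩, fun p => ?_⟩
    have := h6 p.1 p.2
    rw [aeval_eq_eval] at this
    exact this
  ex := by
    rintro y hy ⟨p, hp⟩
    obtain ⟨x, x', h1, _, h3, h4, _⟩ := exists_pair3 L Q hQ y ⟨p.1, p.2, by
      rw [aeval_eq_eval]; exact hp⟩
    exact ⟨x, h1, hy, h3, h4⟩
  ex' := by
    rintro x hx ⟨p, hp⟩
    obtain ⟨y, y', h1, _, h3, h4, _⟩ := exists_pair3 (fun i j => L j i) (fun i j k l => Q k l i j)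
      (fun i j k l => hQ' k l i j) x ⟨p.1, p.2, by rw [aeval_eq_eval]; exact hp⟩
    exact ⟨y, hx, h1, (onL_swap L x y).mp h3, (onQ_swap Q x y).mp h4⟩

/-- The two double coverings of the threefold `L(x, y) = L'(x, y) = Q(x, y) = 0` in `P^3 × P^3`. -/
noncomputable def dbl4 {k : Type u} [Field k] [IsAlgClosed k] (L L' : Matrix (Fin 4) (Fin 4) k)
    (Q : Fin 4 → Fin 4 → Fin 4 → Fin 4 → k) (hQ : ∀ i j k l, Q i j k l = Q j i k l)
    (hQ' : ∀ i j k l, Q i j k l = Q i j l k) : Dbl k 4 6 where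
  G := fun p => chow4 L L' Q p.1 p.2
  G' := fun p => chow4 (fun i j => L j i) (fun i j => L' j i) (fun i j k l => Q k l i j) p.1 p.2
  hG := fun p => isHomogeneous_chow4 L L' Q p.1 p.2
  hG' := fun p => isHomogeneous_chow4 _ _ _ p.1 p.2
  S := {z | z.1 ≠ 0 ∧ z.2 ≠ 0 ∧ OnL L z.1 z.2 ∧ OnL L' z.1 z.2 ∧ OnQ Q z.1 z.2}
  ne1 := fun h => h.1
  ne2 := fun h => h.2.1
  sx := by
    rintro x y ⟨hx, hy, h1, h1', h2⟩ ⟨p, hp⟩
    obtain ⟨x', h3, h4, h4', h5, h6⟩ := exists_other4 L L' Q hQ x y hx h1 h1' h2 ⟨p.1, p.2, by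
      rw [aeval_eq_eval]; exact hp⟩
    refine ⟨x', ⟨h3, hy, h4, h4', h5⟩, fun p => ?_⟩
    have := h6 p.1 p.2
    rw [aeval_eq_eval] at this
    exact this
  sy := by
    rintro x y ⟨hx, hy, h1, h1', h2⟩ ⟨p, hp⟩
    obtain ⟨y', h3, h4, h4', h5, h6⟩ := exists_other4 (fun i j => L j i) (fun i j => L' j i)
      (fun i j k l => Q k l i j) (fun i j k l => hQ' k l i j) y x hy ((onL_swap L x y).mpr h1)
      ((onL_swap L' x y).mpr h1') ((onQ_swap Q x y).mpr h2)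
      ⟨p.1, p.2, by rw [aeval_eq_eval]; exact hp⟩
    refine ⟨y', ⟨hx, h3, (onL_swap L x y').mp h4, (onL_swap L' x y').mp h4',
      (onQ_swap Q x y').mp h5⟩, fun p => ?_⟩
    have := h6 p.1 p.2
    rw [aeval_eq_eval] at this
    exact this
  ex := by
    rintro y hy ⟨p, hp⟩
    obtain ⟨x, x', h1, _, h3, h3', h4, _⟩ := exists_pair4 L L' Q hQ y ⟨p.1, p.2, by
      rw [aeval_eq_eval]; exact hp⟩
    exact ⟨x, h1, hy, h3, h3', h4⟩
  ex' := by
    rintro x hx ⟨p, hp⟩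
    obtain ⟨y, y', h1, _, h3, h3', h4, _⟩ := exists_pair4 (fun i j => L j i) (fun i j => L' j i)
      (fun i j k l => Q k l i j) (fun i j k l => hQ' k l i j) x ⟨p.1, p.2, by
        rw [aeval_eq_eval]; exact hp⟩
    exact ⟨y, hx, h1, (onL_swap L x y).mp h3, (onL_swap L' x y).mp h3', (onQ_swap Q x y).mp h4⟩

end Pool.Agent.Helper37.RP
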