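import Pool.Agent.Helper37.RP.Pr

/-!
# The pair of points of a line on a quadric: forms
-/

namespace Pool.Agent.Helper37.RP

open Matrix MvPolynomial

variable {n : ℕ}

theorem map_bil {R S : Type*} [CommRing R] [CommRing S] (f : R →+* S)
    (M : Matrix (Fin n) (Fin n) R) (u v : Fin n → R) :
    f (bil M u v) = bil (M.map f) (fun i => f (u i)) (fun i => f (v i)) := by
  unfold bil
  simp only [map_sum, map_mul, Matrix.map_apply]

theorem map_gram {R S : Type*} [CommRing R] [CommRing S] (f : R →+* S)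
    (M N : Matrix (Fin n) (Fin n) R) (k l : Fin n) :
    f (gram M N k l) = gram (M.map f) (N.map f) k l := by
  simp only [gram, Matrix.of_apply, map_mul, map_sum, Matrix.map_apply, map_ofNat]

theorem map_N3 {R S : Type*} [CommRing R] [CommRing S] (f : R →+* S) (a : Fin 3 → R) :
    (N3 a).map f = N3 (fun i => f (a i)) := by
  ext i j
  fin_cases i <;> fin_cases j <;> simp [N3]

theorem map_N4 {R S : Type*} [CommRing R] [CommRing S] (f : R →+* S) (a b : Fin 4 → R) :
    (N4 a b).map f = N4 (fun i => f (a i)) (fun i => f (b i)) := by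
  ext i j
  fin_cases i <;> fin_cases j <;> simp [N4, plk]

variable {R : Type*} [CommRing R] {σ : Type*}

theorem isHomogeneous_gram (M N : Matrix (Fin n) (Fin n) (MvPolynomial σ R)) {e d : ℕ}
    (hM : ∀ i j, (M i j).IsHomogeneous e) (hN : ∀ i j, (N i j).IsHomogeneous d) (k l : Fin n) :
    (gram M N k l).IsHomogeneous (2 * d + e) := by
  simp only [gram, Matrix.of_apply]
  have h2 : (2 : MvPolynomial σ R).IsHomogeneous 0 := by
    have := isHomogeneous_C σ (2 : R)
    rwa [map_ofNat] at this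
  have h3 : (∑ i, ∑ m, N i k * M i m * N m l).IsHomogeneous (2 * d + e) := by
    refine IsHomogeneous.sum _ _ _ fun i _ => IsHomogeneous.sum _ _ _ fun m _ => ?_
    have := ((hN i k).mul (hM i m)).mul (hN m l)
    have e1 : d + e + d = 2 * d + e := by ring
    rwa [e1] at this
  have := h2.mul h3
  rwa [zero_add] at this

theorem isHomogeneous_N3 (a : Fin 3 → MvPolynomial σ R) {d : ℕ}
    (ha : ∀ i, (a i).IsHomogeneous d) (i j : Fin 3) : (N3 a i j).IsHomogeneous d := by
  fin_cases i <;> fin_cases j <;> simp [N3, ha, isHomogeneous_zero] <;> exact (ha _).neg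

theorem isHomogeneous_plk (a b : Fin 4 → MvPolynomial σ R) {d e : ℕ}
    (ha : ∀ i, (a i).IsHomogeneous d) (hb : ∀ i, (b i).IsHomogeneous e) (i j : Fin 4) :
    (plk a b i j).IsHomogeneous (d + e) :=
  ((ha i).mul (hb j)).sub ((ha j).mul (hb i))

theorem isHomogeneous_N4 (a b : Fin 4 → MvPolynomial σ R) {d e : ℕ}
    (ha : ∀ i, (a i).IsHomogeneous d) (hb : ∀ i, (b i).IsHomogeneous e) (i j : Fin 4) :
    (N4 a b i j).IsHomogeneous (d + e) := by
  have h := isHomogeneous_plk a b ha hb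
  fin_cases i <;> fin_cases j <;> simp [N4, h, isHomogeneous_zero] <;> exact (h _ _).neg

/-- The coefficients of the linear form `L(., y)`. -/
noncomputable def lin (L : Matrix (Fin n) (Fin n) R) : Fin n → MvPolynomial (Fin n) R :=
  fun i => ∑ j, C (L i j) * X j

/-- The matrix of the quadratic form `Q(., y)`. -/
noncomputable def quad (Q : Fin n → Fin n → Fin n → Fin n → R) :
    Matrix (Fin n) (Fin n) (MvPolynomial (Fin n) R) :=
  Matrix.of fun i j => ∑ k, ∑ l, C (Q i j k l) * (X k * X l)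

theorem isHomogeneous_lin (L : Matrix (Fin n) (Fin n) R) (i : Fin n) :
    (lin L i).IsHomogeneous 1 := by
  refine IsHomogeneous.sum _ _ _ fun j _ => ?_
  have := (isHomogeneous_C (Fin n) (L i j)).mul (isHomogeneous_X R j)
  rwa [zero_add] at this

theorem isHomogeneous_quad (Q : Fin n → Fin n → Fin n → Fin n → R) (i j : Fin n) :
    (quad Q i j).IsHomogeneous 2 := by
  rw [quad, Matrix.of_apply]
  refine IsHomogeneous.sum _ _ _ fun k _ => IsHomogeneous.sum _ _ _ fun l _ => ?_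
  have := (isHomogeneous_C (Fin n) (Q i j k l)).mul
    ((isHomogeneous_X R k).mul (isHomogeneous_X R l))
  rwa [zero_add] at this

theorem aeval_lin {S : Type*} [CommRing S] [Algebra R S] (L : Matrix (Fin n) (Fin n) R)
    (y : Fin n → S) (i : Fin n) : aeval y (lin L i) = ∑ j, algebraMap R S (L i j) * y j := by
  simp [lin]

theorem aeval_quad {S : Type*} [CommRing S] [Algebra R S]
    (Q : Fin n → Fin n → Fin n → Fin n → R) (y : Fin n → S) (i j : Fin n) :
    aeval y (quad Q i j) = ∑ k, ∑ l, algebraMap R S (Q i j k l) * (y k * y l) := by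
  simp [quad]

/-- The forms of degree `4` in `y`: the pair of points `x`, `x'` over `y` for `(1,1)`, `(2,2)` in
`P^2 × P^2`. -/
noncomputable def chow3 (L : Matrix (Fin 3) (Fin 3) R) (Q : Fin 3 → Fin 3 → Fin 3 → Fin 3 → R) :
    Matrix (Fin 3) (Fin 3) (MvPolynomial (Fin 3) R) :=
  gram (quad Q) (N3 (lin L))

/-- The forms of degree `6` in `y`: the pair of points `x`, `x'` over `y` for `(1,1)`, `(1,1)`,
`(2,2)` in `P^3 × P^3`. -/
noncomputable def chow4 (L L' : Matrix (Fin 4) (Fin 4) R)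
    (Q : Fin 4 → Fin 4 → Fin 4 → Fin 4 → R) :
    Matrix (Fin 4) (Fin 4) (MvPolynomial (Fin 4) R) :=
  gram (quad Q) (N4 (lin L) (lin L'))

theorem isHomogeneous_chow3 (L : Matrix (Fin 3) (Fin 3) R)
    (Q : Fin 3 → Fin 3 → Fin 3 → Fin 3 → R) (i j : Fin 3) : (chow3 L Q i j).IsHomogeneous 4 :=
  isHomogeneous_gram _ _ (isHomogeneous_quad Q) (isHomogeneous_N3 _ (isHomogeneous_lin L)) i j

theorem isHomogeneous_chow4 (L L' : Matrix (Fin 4) (Fin 4) R)
    (Q : Fin 4 → Fin 4 → Fin 4 → Fin 4 → R) (i j : Fin 4) : (chow4 L L' Q i j).IsHomogeneous 6 :=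
  isHomogeneous_gram _ _ (isHomogeneous_quad Q)
    (isHomogeneous_N4 _ _ (isHomogeneous_lin L) (isHomogeneous_lin L')) i j

/-- `L(x, y) = 0`. -/
def OnL {S : Type*} [CommRing S] [Algebra R S] (L : Matrix (Fin n) (Fin n) R) (x y : Fin n → S) :
    Prop :=
  ∑ i, ∑ j, algebraMap R S (L i j) * (x i * y j) = 0

/-- `Q(x, y) = 0`. -/
def OnQ {S : Type*} [CommRing S] [Algebra R S] (Q : Fin n → Fin n → Fin n → Fin n → R)
    (x y : Fin n → S) : Prop :=
  ∑ i, ∑ j, ∑ k, ∑ l, algebraMap R S (Q i j k l) * (x i * x j * (y k * y l)) = 0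

theorem onL_iff {S : Type*} [CommRing S] [Algebra R S] (L : Matrix (Fin n) (Fin n) R)
    (x y : Fin n → S) : OnL L x y ↔ ∑ i, aeval y (lin L i) * x i = 0 := by
  unfold OnL
  have e : ∀ i, ∑ j, algebraMap R S (L i j) * (x i * y j) = aeval y (lin L i) * x i := by
    intro i
    rw [aeval_lin, Finset.sum_mul]
    exact Finset.sum_congr rfl fun j _ => by ring
  rw [Finset.sum_congr rfl fun i _ => e i]

theorem onQ_iff {S : Type*} [CommRing S] [Algebra R S] (Q : Fin n → Fin n → Fin n → Fin n → R)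
    (x y : Fin n → S) : OnQ Q x y ↔ bil ((quad Q).map (aeval y : _ →ₐ[R] S)) x x = 0 := by
  unfold OnQ bil
  have e : ∀ i j, ∑ k, ∑ l, algebraMap R S (Q i j k l) * (x i * x j * (y k * y l)) =
      x i * ((quad Q).map (aeval y : _ →ₐ[R] S)) i j * x j := by
    intro i j
    rw [Matrix.map_apply, aeval_quad, Finset.mul_sum, Finset.sum_mul]
    refine Finset.sum_congr rfl fun k _ => ?_
    rw [Finset.mul_sum, Finset.sum_mul]
    exact Finset.sum_congr rfl fun l _ => by ring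
  rw [Finset.sum_congr rfl fun i _ => Finset.sum_congr rfl fun j _ => e i j]

theorem aeval_chow3 {S : Type*} [CommRing S] [Algebra R S] (L : Matrix (Fin 3) (Fin 3) R)
    (Q : Fin 3 → Fin 3 → Fin 3 → Fin 3 → R) (y : Fin 3 → S) (i j : Fin 3) :
    aeval y (chow3 L Q i j) =
      gram ((quad Q).map (aeval y : _ →ₐ[R] S)) (N3 fun i => aeval y (lin L i)) i j := by
  have h := map_gram ((aeval y : MvPolynomial (Fin 3) R →ₐ[R] S) : MvPolynomial (Fin 3) R →+* S)
    (quad Q) (N3 (lin L)) i j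
  rw [map_N3] at h
  exact h

theorem aeval_chow4 {S : Type*} [CommRing S] [Algebra R S] (L L' : Matrix (Fin 4) (Fin 4) R)
    (Q : Fin 4 → Fin 4 → Fin 4 → Fin 4 → R) (y : Fin 4 → S) (i j : Fin 4) :
    aeval y (chow4 L L' Q i j) =
      gram ((quad Q).map (aeval y : _ →ₐ[R] S))
        (N4 (fun i => aeval y (lin L i)) (fun i => aeval y (lin L' i))) i j := by
  have h := map_gram ((aeval y : MvPolynomial (Fin 4) R →ₐ[R] S) : MvPolynomial (Fin 4) R →+* S)
    (quad Q) (N4 (lin L) (lin L')) i j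
  rw [map_N4] at h
  exact h

theorem quad_symm {S : Type*} [CommRing S] [Algebra R S] (Q : Fin n → Fin n → Fin n → Fin n → R)
    (hQ : ∀ i j k l, Q i j k l = Q j i k l) (y : Fin n → S) (i j : Fin n) :
    ((quad Q).map (aeval y : _ →ₐ[R] S)) i j = ((quad Q).map (aeval y : _ →ₐ[R] S)) j i := by
  rw [Matrix.map_apply, Matrix.map_apply, aeval_quad, aeval_quad]
  exact Finset.sum_congr rfl fun k _ => Finset.sum_congr rfl fun l _ => by rw [hQ i j k l]

/-- The second point over `y`, for `(1,1)`, `(2,2)` in `P^2 × P^2`. -/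
theorem exists_other3 {k Ω : Type*} [Field k] [Field Ω] [Algebra k Ω]
    (L : Matrix (Fin 3) (Fin 3) k) (Q : Fin 3 → Fin 3 → Fin 3 → Fin 3 → k)
    (hQ : ∀ i j k l, Q i j k l = Q j i k l) (x y : Fin 3 → Ω) (hx : x ≠ 0) (hL : OnL L x y)
    (hxy : OnQ Q x y) (hG : ∃ i j, aeval y (chow3 L Q i j) ≠ 0) :
    ∃ x' : Fin 3 → Ω, x' ≠ 0 ∧ OnL L x' y ∧ OnQ Q x' y ∧
      ∀ i j, aeval y (chow3 L Q i j) = x i * x' j + x j * x' i := by
  rw [onL_iff] at hL
  rw [onQ_iff] at hxy
  obtain ⟨x', h0, h1, h2, h3⟩ := exists_other (quad_symm Q hQ y) (isLine_N3 _ x hL) hx hxy (by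
    intro h
    obtain ⟨i, j, hij⟩ := hG
    rw [aeval_chow3, h] at hij
    exact hij rfl)
  refine ⟨x', h0, ?_, ?_, fun i j => ?_⟩
  · rw [onL_iff]
    exact h3 _ hL (dot_N3 _)
  · rw [onQ_iff]
    exact h1
  · rw [aeval_chow3, h2]
    rfl

/-- The second point over `y`, for `(1,1)`, `(1,1)`, `(2,2)` in `P^3 × P^3`. -/
theorem exists_other4 {k Ω : Type*} [Field k] [Field Ω] [Algebra k Ω]
    (L L' : Matrix (Fin 4) (Fin 4) k) (Q : Fin 4 → Fin 4 → Fin 4 → Fin 4 → k)
    (hQ : ∀ i j k l, Q i j k l = Q j i k l) (x y : Fin 4 → Ω) (hx : x ≠ 0) (hL : OnL L x y)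
    (hL' : OnL L' x y) (hxy : OnQ Q x y) (hG : ∃ i j, aeval y (chow4 L L' Q i j) ≠ 0) :
    ∃ x' : Fin 4 → Ω, x' ≠ 0 ∧ OnL L x' y ∧ OnL L' x' y ∧ OnQ Q x' y ∧
      ∀ i j, aeval y (chow4 L L' Q i j) = x i * x' j + x j * x' i := by
  rw [onL_iff] at hL hL'
  rw [onQ_iff] at hxy
  obtain ⟨x', h0, h1, h2, h3⟩ := exists_other (quad_symm Q hQ y) (isLine_N4 _ _ x hL hL') hx hxy
    (by
      intro h
      obtain ⟨i, j, hij⟩ := hG
      rw [aeval_chow4, h] at hij
      exact hij rfl)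
  refine ⟨x', h0, ?_, ?_, ?_, fun i j => ?_⟩
  · rw [onL_iff]
    exact h3 _ hL (dot_N4_left _ _)
  · rw [onL_iff]
    exact h3 _ hL' (dot_N4_right _ _)
  · rw [onQ_iff]
    exact h1
  · rw [aeval_chow4, h2]
    rfl

end Pool.Agent.Helper37.RP
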