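import Mathlib

/-!
# Closure of an orbit of subvarieties of codimension at most two
-/

namespace Pool.Agent.Helper37.RP

variable {O : Type*} [CommRing O] [IsDomain O] [IsNoetherianRing O]

/-- If no prime of height one has a finite orbit, the intersection of an infinite orbit of a prime
of height at most two is zero. -/
theorem orbit_inf (G : Subgroup (O ≃+* O)) (p : Ideal O) [hp : p.IsPrime] (hp2 : p.height ≤ 2)
    (hinf : {q : Ideal O | ∃ g ∈ G, q = p.comap (g : O →+* O)}.Infinite)
    (hnp : ∀ q : Ideal O, q.IsPrime → q.height = 1 →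
      {r : Ideal O | ∃ g ∈ G, r = q.comap (g : O →+* O)}.Infinite)
    (h : O) (hh : ∀ g ∈ G, g h ∈ p) : h = 0 := by
  classical
  let I : Ideal O := sInf {q : Ideal O | ∃ g ∈ G, q = p.comap (g : O →+* O)}
  have hI : ∀ x, x ∈ I ↔ ∀ g ∈ G, g x ∈ p := by
    intro x
    rw [Submodule.mem_sInf]
    constructor
    · intro H g hg
      exact H _ ⟨g, hg, rfl⟩
    · rintro H _ ⟨g, hg, rfl⟩
      exact H g hg
  have hst : ∀ g ∈ G, I.comap (g : O →+* O) = I := by
    intro g hg
    ext x
    rw [Ideal.mem_comap, hI, hI]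
    constructor
    · intro H g' hg'
      have := H (g' * g⁻¹) (G.mul_mem hg' (G.inv_mem hg))
      have e : (g' * g⁻¹) ((g : O →+* O) x) = g' x := by
        show g' (g.symm (g x)) = g' x
        rw [g.symm_apply_apply]
      rwa [e] at this
    · intro H g' hg'
      exact H (g' * g) (G.mul_mem hg' hg)
  have hIp : I ≤ p := fun x hx => by
    have := (hI x).mp hx 1 G.one_mem
    exact this
  obtain ⟨q, hq, hqp⟩ := Ideal.exists_minimalPrimes_le hIp
  have hqprime : q.IsPrime := hq.1.1
  have hmin : ∀ g ∈ G, q.comap (g : O →+* O) ∈ I.minimalPrimes := by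
    intro g hg
    refine ⟨⟨Ideal.comap_isPrime _ _, ?_⟩, ?_⟩
    · rw [← hst g hg]
      exact Ideal.comap_mono hq.1.2
    · rintro r ⟨hr, hIr⟩ hle
      have : r.IsPrime := hr
      have h1 : I ≤ r.comap ((g⁻¹ : O ≃+* O) : O →+* O) := by
        rw [← hst g⁻¹ (G.inv_mem hg)]
        exact Ideal.comap_mono hIr
      have h2 : r.comap ((g⁻¹ : O ≃+* O) : O →+* O) ≤ q := by
        intro x hx
        have := hle hx
        rw [Ideal.mem_comap] at this
        have e : (g : O →+* O) (((g⁻¹ : O ≃+* O) : O →+* O) x) = x := g.apply_symm_apply x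
        rwa [e] at this
      have h3 := hq.2 ⟨Ideal.comap_isPrime _ _, h1⟩ h2
      intro x hx
      rw [Ideal.mem_comap] at hx
      have h4 := h3 hx
      rw [Ideal.mem_comap] at h4
      have e : ((g⁻¹ : O ≃+* O) : O →+* O) ((g : O →+* O) x) = x := g.symm_apply_apply x
      rwa [e] at h4
  have hfin : {r : Ideal O | ∃ g ∈ G, r = q.comap (g : O →+* O)}.Finite := by
    refine (Ideal.finite_minimalPrimes_of_isNoetherianRing O I).subset ?_
    rintro _ ⟨g, hg, rfl⟩
    exact hmin g hg
  have hlt : q < p := by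
    refine lt_of_le_of_ne hqp fun e => ?_
    subst e
    exact hinf hfin
  have hht : q.height + 1 ≤ 2 := (Ideal.height_add_one_le_of_lt_of_isPrime hlt).trans hp2
  have hle1 : q.height ≤ 1 := by
    have e : (2 : ℕ∞) = 1 + 1 := by norm_num
    rw [e] at hht
    exact (ENat.add_le_add_iff_right (by decide)).mp hht
  have hq0 : q = ⊥ := by
    rcases hle1.lt_or_eq with h1 | h1
    · exact Ideal.height_eq_zero_iff_eq_bot.mp (Order.lt_one_iff.mp h1)
    · exact absurd hfin (hnp q hqprime h1)
  have : h ∈ q := hq.1.2 ((hI h).mpr hh)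
  rw [hq0] at this
  exact this

/-- A map of an ultrametric space which moves all points in nearly the same way: a periodic point is
fixed. -/
theorem fixed_of_periodic {F V : Type*} [NormedField F] [SeminormedAddCommGroup V]
    [NormedSpace F V] [IsUltrametricDist V] (c : ℝ) (hc : 0 ≤ c) (hc1 : c ≤ 1)
    (hl : ∀ l : ℕ, l.Prime → c < ‖(l : F)‖)
    (hV : ∀ v : V, ‖v‖ = 0 → v = 0) (S : Set V) (n : ℕ) (hn : 0 < n) (g : V → V)
    (hS : ∀ z ∈ S, g z ∈ S)
    (hg : ∀ z ∈ S, ∀ w ∈ S, ‖(g z - z) - (g w - w)‖ ≤ c * ‖z - w‖) (z : V) (hz : z ∈ S)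
    (hper : g^[n] z = z) : g z = z := by
  induction n using Nat.strong_induction_on generalizing g z with
  | _ n ih => ?_
  have hiter : ∀ (k : ℕ) (w : V), w ∈ S → g^[k] w ∈ S := by
    intro k
    induction k with
    | zero => intro w hw; exact hw
    | succ k ihk => intro w hw; rw [Function.iterate_succ_apply']; exact hS _ (ihk w hw)
  -- the iterates are close too
  have hdist : ∀ (k : ℕ) (w : V), w ∈ S → ∀ u ∈ S, ‖g^[k] w - g^[k] u‖ ≤ ‖w - u‖ := by
    intro k
    induction k with
    | zero => intro w _ u _; exact le_rfl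
    | succ k ihk =>
      intro w hw u hu
      rw [Function.iterate_succ_apply', Function.iterate_succ_apply']
      have h1 := hg _ (hiter k w hw) _ (hiter k u hu)
      have h2 := ihk w hw u hu
      have e : g (g^[k] w) - g (g^[k] u) = ((g (g^[k] w) - g^[k] w) - (g (g^[k] u) - g^[k] u)) +
          (g^[k] w - g^[k] u) := by abel
      rw [e]
      refine (IsUltrametricDist.norm_add_le_max _ _).trans (max_le ?_ h2)
      refine h1.trans ?_
      calc c * ‖g^[k] w - g^[k] u‖ ≤ 1 * ‖w - u‖ := mul_le_mul hc1 h2 (norm_nonneg _) zero_le_one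
        _ = ‖w - u‖ := one_mul _
  have hgk : ∀ (k : ℕ), ∀ w ∈ S, ∀ u ∈ S,
      ‖(g^[k] w - w) - (g^[k] u - u)‖ ≤ c * ‖w - u‖ := by
    intro k
    induction k with
    | zero =>
      intro w _ u _
      simp only [Function.iterate_zero, id, sub_self, norm_zero]
      positivity
    | succ k ihk =>
      intro w hw u hu
      rw [Function.iterate_succ_apply', Function.iterate_succ_apply']
      have e : (g (g^[k] w) - w) - (g (g^[k] u) - u) =
          ((g (g^[k] w) - g^[k] w) - (g (g^[k] u) - g^[k] u)) + ((g^[k] w - w) - (g^[k] u - u)) := by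
        abel
      rw [e]
      refine (IsUltrametricDist.norm_add_le_max _ _).trans (max_le ?_ (ihk w hw u hu))
      refine (hg _ (hiter k w hw) _ (hiter k u hu)).trans ?_
      exact mul_le_mul_of_nonneg_left (hdist k w hw u hu) hc
  -- the prime case
  have hprime : ∀ (G : V → V), (∀ w ∈ S, G w ∈ S) →
      (∀ w ∈ S, ∀ u ∈ S, ‖(G w - w) - (G u - u)‖ ≤ c * ‖w - u‖) →
      ∀ l : ℕ, l.Prime → ∀ w ∈ S, G^[l] w = w → G w = w := by
    intro G hGS hG l hlp w hw hGl
    have hit : ∀ k : ℕ, G^[k] w ∈ S := by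
      intro k
      induction k with
      | zero => exact hw
      | succ k ihk => rw [Function.iterate_succ_apply']; exact hGS _ ihk
    have hD : ∀ k : ℕ, ‖(G^[k + 1] w - G^[k] w) - (G w - w)‖ ≤ c * ‖G w - w‖ := by
      intro k
      induction k with
      | zero =>
        rw [zero_add, Function.iterate_one, Function.iterate_zero, id, sub_self, norm_zero]
        positivity
      | succ k ihk =>
        have e : (G^[k + 1 + 1] w - G^[k + 1] w) - (G w - w) =
            ((G (G^[k + 1] w) - G^[k + 1] w) - (G (G^[k] w) - G^[k] w)) +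
              ((G^[k + 1] w - G^[k] w) - (G w - w)) := by
          rw [Function.iterate_succ_apply' G (k + 1) w, Function.iterate_succ_apply' G k w]
          abel
        rw [e]
        refine (IsUltrametricDist.norm_add_le_max _ _).trans (max_le ?_ ihk)
        refine (hG _ (hit (k + 1)) _ (hit k)).trans ?_
        have h3 : ‖G^[k + 1] w - G^[k] w‖ ≤ ‖G w - w‖ := by
          have e2 : G^[k + 1] w - G^[k] w = ((G^[k + 1] w - G^[k] w) - (G w - w)) + (G w - w) := by
            abel
          rw [e2]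
          refine (IsUltrametricDist.norm_add_le_max _ _).trans (max_le ?_ le_rfl)
          refine ihk.trans ?_
          calc c * ‖G w - w‖ ≤ 1 * ‖G w - w‖ :=
                mul_le_mul_of_nonneg_right hc1 (norm_nonneg _)
            _ = ‖G w - w‖ := one_mul _
        exact mul_le_mul_of_nonneg_left h3 hc
    have hsum : ∀ k : ℕ, ‖(G^[k] w - w) - k • (G w - w)‖ ≤ c * ‖G w - w‖ := by
      intro k
      induction k with
      | zero =>
        rw [Function.iterate_zero, id, sub_self, zero_smul, sub_zero, norm_zero]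
        positivity
      | succ k ihk =>
        have e : (G^[k + 1] w - w) - (k + 1) • (G w - w) =
            ((G^[k + 1] w - G^[k] w) - (G w - w)) + ((G^[k] w - w) - k • (G w - w)) := by
          rw [succ_nsmul]
          abel
        rw [e]
        exact (IsUltrametricDist.norm_add_le_max _ _).trans (max_le (hD k) ihk)
    have h4 := hsum l
    rw [hGl, sub_self, zero_sub, norm_neg] at h4
    have h5 : ‖l • (G w - w)‖ = ‖(l : F)‖ * ‖G w - w‖ := by
      rw [← norm_smul, Nat.cast_smul_eq_nsmul]
    rw [h5] at h4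
    have h6 : ‖G w - w‖ = 0 := by
      by_contra hne
      have hpos : 0 < ‖G w - w‖ := lt_of_le_of_ne (norm_nonneg _) (Ne.symm hne)
      have := mul_lt_mul_of_pos_right (hl l hlp) hpos
      linarith
    exact sub_eq_zero.mp (hV _ h6)
  rcases Nat.lt_or_ge 1 n with h1 | h1
  · obtain ⟨l, hlp, m, hm⟩ : ∃ l : ℕ, l.Prime ∧ ∃ m, n = l * m := by
      obtain ⟨l, hlp, hd⟩ := Nat.exists_prime_and_dvd (by omega : n ≠ 1)
      exact ⟨l, hlp, hd⟩
    have hm0 : 0 < m := by
      rcases Nat.eq_zero_or_pos m with h | h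
      · rw [h, mul_zero] at hm; omega
      · exact h
    have hmn : m < n := by
      rw [hm]
      have := hlp.two_le
      nlinarith
    have h2 : (g^[m])^[l] z = z := by
      rw [← Function.iterate_mul, mul_comm, ← hm]
      exact hper
    have h3 := hprime (g^[m]) (hiter m) (hgk m) l hlp z hz h2
    exact ih m hmn hm0 g hS hg z hz h3
  · have : n = 1 := by omega
    subst this
    exact hper

/-- Points over `L` of the subvariety `g (V p)`: a function `h` with `g h` not in `p` does not vanish
at all of them. -/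
theorem exists_point {K L O : Type*} [Field K] [Field L] [Algebra K L] [CommRing O] [IsDomain O]
    [Algebra K O] (A : Subalgebra K O) (S : Finset O) (hA : A = Algebra.adjoin K (S : Set O))
    (hloc : ∀ z : O, ∃ a ∈ A, ∃ s ∈ A, IsUnit s ∧ z * s = a)
    (p : Ideal O) [hp : p.IsPrime]
    (hZ : ∀ a : A, (a : O) ∉ p → ∃ φ : A →ₐ[K] L, φ a ≠ 0)
    (g : O →ₐ[K] O) (h : A) (hg : g h ∉ p) : ∃ φ : A →ₐ[K] L, φ h ≠ 0 := by
  classical
  choose a ha s hs hu has using hloc
  let s' : O → A := fun z => ⟨s z, hs z⟩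
  let a' : O → A := fun z => ⟨a z, ha z⟩
  have hup : ∀ z : O, IsUnit z → z ∉ p := fun z hz hzp =>
    hp.ne_top (Ideal.eq_top_of_isUnit_mem _ hzp hz)
  obtain ⟨φ, hφ⟩ := hZ (a' (g h) * s' (g h) * ∏ z ∈ S, s' (g z)) (by
    intro hmem
    have e : ((a' (g h) * s' (g h) * ∏ z ∈ S, s' (g z) : A) : O) =
        a (g h) * s (g h) * ∏ z ∈ S, s (g z) := by
      push_cast
      rfl
    rw [e] at hmem
    rcases hp.mem_or_mem hmem with h1 | h1
    · rcases hp.mem_or_mem h1 with h2 | h2
      · rw [← has] at h2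
        rcases hp.mem_or_mem h2 with h3 | h3
        · exact hg h3
        · exact hup _ (hu _) h3
      · exact hup _ (hu _) h2
    · obtain ⟨z, _, hz⟩ := (Ideal.IsPrime.prod_mem_iff).mp h1
      exact hup _ (hu _) hz)
  rw [map_mul, map_mul, map_prod] at hφ
  have h1 : φ (a' (g h)) ≠ 0 := fun e => hφ (by rw [e, zero_mul, zero_mul])
  have h2 : φ (s' (g h)) ≠ 0 := fun e => hφ (by rw [e, mul_zero, zero_mul])
  have h3 : ∀ z ∈ S, φ (s' (g z)) ≠ 0 := fun z hz e => hφ (by
    rw [Finset.prod_eq_zero hz e, mul_zero])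
  let M : Submonoid A :=
    { carrier := {x | φ x ≠ 0 ∧ IsUnit (x : O)}
      one_mem' := ⟨by rw [map_one]; exact one_ne_zero, isUnit_one⟩
      mul_mem' := fun {x y} hx hy => ⟨by rw [map_mul]; exact mul_ne_zero hx.1 hy.1,
        hx.2.mul hy.2⟩ }
  let B := Localization M
  let ι : B →ₐ[K] O := IsLocalization.liftAlgHom (M := M) (f := A.val) (fun y => y.2.2)
  let φB : B →ₐ[K] L := IsLocalization.liftAlgHom (M := M) (f := φ) (fun y => by
    exact isUnit_iff_ne_zero.mpr y.2.1)
  have hιA : ∀ x : A, ι (algebraMap A B x) = x := fun x => by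
    exact IsLocalization.lift_eq _ x
  have hφA : ∀ x : A, φB (algebraMap A B x) = φ x := fun x => by
    exact IsLocalization.lift_eq _ x
  have hinj : Function.Injective ι := by
    rw [injective_iff_map_eq_zero]
    intro b hb
    obtain ⟨⟨x, m⟩, hxm⟩ := IsLocalization.surj M b
    have e1 : ι b * ι (algebraMap A B m) = ι (algebraMap A B x) := by
      rw [← map_mul, hxm]
    rw [hb, zero_mul, hιA] at e1
    have e2 : x = 0 := Subtype.ext e1.symm
    rw [e2, map_zero] at hxm
    exact ((IsLocalization.map_units B m).mul_left_eq_zero).mp hxm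
  have hmem : ∀ z : O, φ (s' z) ≠ 0 → ∃ b : B, ι b = z ∧ φB b * φ (s' z) = φ (a' z) := by
    intro z hz
    let m : M := ⟨s' z, hz, hu z⟩
    refine ⟨IsLocalization.mk' B (a' z) m, ?_, ?_⟩
    · have e1 : ι (IsLocalization.mk' B (a' z) m) * ι (algebraMap A B (s' z)) =
          ι (algebraMap A B (a' z)) := by
        rw [← map_mul]
        congr 1
        exact IsLocalization.mk'_spec B (a' z) m
      rw [hιA, hιA] at e1
      have e2 : z * s z = a z := has z
      exact (hu z).mul_right_cancel (e1.trans e2.symm)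
    · rw [← hφA, ← hφA, ← map_mul]
      congr 1
      exact IsLocalization.mk'_spec B (a' z) m
  have hrange : ∀ x : A, g x ∈ ι.range := by
    intro x
    have h5 : A ≤ ι.range.comap g := by
      refine hA.le.trans (Algebra.adjoin_le fun z hz => ?_)
      obtain ⟨b, hb, _⟩ := hmem (g z) (h3 z hz)
      exact ⟨b, hb⟩
    exact h5 x.2
  let ψ : A →ₐ[K] L := (φB.comp (AlgEquiv.ofInjective ι hinj).symm.toAlgHom).comp
    ((g.comp A.val).codRestrict ι.range hrange)
  refine ⟨ψ, ?_⟩
  obtain ⟨b, hb, hb2⟩ := hmem (g h) h2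
  have e : ψ h = φB b := by
    show φB ((AlgEquiv.ofInjective ι hinj).symm ⟨g h, hrange h⟩) = φB b
    congr 1
    rw [AlgEquiv.symm_apply_eq]
    apply Subtype.ext
    rw [AlgEquiv.ofInjective_apply]
    exact hb.symm
  rw [e]
  intro h0
  rw [h0, zero_mul] at hb2
  exact h1 hb2.symm

end Pool.Agent.Helper37.RP
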