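import Mathlib

/-!
# The pair of points of a line on a quadric

`N` is an antisymmetric matrix; `IsLine N x`: the cyclic identity `x_i N_jl + x_j N_li + x_l N_ij = 0`,
i.e. `N = x ∧ t` is the Pluecker matrix of a line through `x`.  For `a . x = 0` (`n = 3`) the matrix `N3 a` of
`ξ ↦ a × ξ`, and for `a . x = b . x = 0` (`n = 4`) the matrix `N4 a b` of `ξ ↦ a × b × ξ` satisfy it.
If `M` is symmetric and `q(x) = x M x = 0`, then `t = N e_j`, `x' = q(t) x - 2 M(x,t) t` satisfy
`x_j ^ 2 (2 N^T M N) = pr x x'`, where `pr x x'` is the polar matrix of the product of the linear forms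
`x . ξ` and `x' . ξ`.
-/

namespace Pool.Agent.Helper37.RP

open Matrix

variable {R : Type*} [CommRing R] {n : ℕ}

/-- The polar matrix of the product of the linear forms with coefficients `x` and `x'`. -/
def pr (x x' : Fin n → R) : Matrix (Fin n) (Fin n) R :=
  Matrix.of fun i j => x i * x' j + x j * x' i

theorem pr_comm (x x' : Fin n → R) : pr x x' = pr x' x := by
  ext i j
  simp only [pr, Matrix.of_apply]
  ring

/-- The bilinear form of a matrix. -/
def bil (M : Matrix (Fin n) (Fin n) R) (u v : Fin n → R) : R := ∑ i, ∑ j, u i * M i j * v j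

theorem bil_comm {M : Matrix (Fin n) (Fin n) R} (hM : ∀ i j, M i j = M j i) (u v : Fin n → R) :
    bil M u v = bil M v u := by
  unfold bil
  rw [Finset.sum_comm]
  refine Finset.sum_congr rfl fun i _ => Finset.sum_congr rfl fun j _ => ?_
  rw [hM j i]
  ring

theorem bil_lin (M : Matrix (Fin n) (Fin n) R) (a b c d : R) (u v w z : Fin n → R) :
    bil M (fun i => a * u i + b * v i) (fun i => c * w i + d * z i) =
      a * c * bil M u w + a * d * bil M u z + b * c * bil M v w + b * d * bil M v z := by
  unfold bil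
  simp only [Finset.mul_sum, ← Finset.sum_add_distrib]
  refine Finset.sum_congr rfl fun i _ => Finset.sum_congr rfl fun j _ => ?_
  ring

/-- `N` is the Pluecker matrix of a line through `x`. -/
structure IsLine (N : Matrix (Fin n) (Fin n) R) (x : Fin n → R) : Prop where
  anti : ∀ i j, N i j = -N j i
  cyc : ∀ i j l, x i * N j l + x j * N l i + x l * N i j = 0

/-- The second point: `q(t) x - 2 M(x, t) t` with `t = N e_j`. -/
def other (M N : Matrix (Fin n) (Fin n) R) (j : Fin n) (x : Fin n → R) : Fin n → R :=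
  fun i => bil M (fun l => N l j) (fun l => N l j) * x i +
    (-2 * bil M x (fun l => N l j)) * N i j

theorem IsLine.key {N : Matrix (Fin n) (Fin n) R} {x : Fin n → R} (h : IsLine N x) (i j l : Fin n) :
    x j * N i l = x l * N i j - N l j * x i := by
  have h1 := h.cyc i j l
  have h2 := h.anti j l
  have h3 := h.anti l i
  rw [h2, h3] at h1
  linear_combination -h1

/-- The polar matrix of `ξ ↦ q(N ξ)`. -/
def gram (M N : Matrix (Fin n) (Fin n) R) : Matrix (Fin n) (Fin n) R :=
  Matrix.of fun k l => 2 * ∑ i, ∑ m, N i k * M i m * N m l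

theorem gram_eq_bil (M N : Matrix (Fin n) (Fin n) R) (k l : Fin n) :
    gram M N k l = 2 * bil M (fun i => N i k) (fun i => N i l) := rfl

theorem sq_mul_gram {M N : Matrix (Fin n) (Fin n) R} (hM : ∀ i j, M i j = M j i) {x : Fin n → R}
    (h : IsLine N x) (hx : bil M x x = 0) (j : Fin n) (k l : Fin n) :
    x j ^ 2 * gram M N k l = pr x (other M N j x) k l := by
  have hk : (fun i => x j * N i k + 0 * N i k) = fun i => x k * N i j + (-N k j) * x i := by
    funext i
    rw [h.key i j k]
    ring
  have hl : (fun i => x j * N i l + 0 * N i l) = fun i => x l * N i j + (-N l j) * x i := by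
    funext i
    rw [h.key i j l]
    ring
  have e1 := bil_lin M (x j) 0 (x j) 0 (fun i => N i k) (fun i => N i k) (fun i => N i l)
    (fun i => N i l)
  rw [hk, hl, bil_lin M (x k) (-N k j) (x l) (-N l j) (fun i => N i j) x (fun i => N i j) x, hx]
    at e1
  have e2 : bil M (fun i => N i j) x = bil M x (fun i => N i j) := bil_comm hM _ _
  rw [e2] at e1
  rw [gram_eq_bil]
  simp only [pr, Matrix.of_apply, other]
  linear_combination (-2) * e1

theorem bil_other {M N : Matrix (Fin n) (Fin n) R} (hM : ∀ i j, M i j = M j i) {x : Fin n → R}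
    (hx : bil M x x = 0) (j : Fin n) : bil M (other M N j x) (other M N j x) = 0 := by
  unfold other
  rw [bil_lin, hx, bil_comm hM (fun l => N l j) x]
  ring

/-- Linear forms vanishing at `x` and on the columns of `N` vanish at the second point. -/
theorem dot_other {M N : Matrix (Fin n) (Fin n) R} {x : Fin n → R} (a : Fin n → R)
    (ha : ∑ i, a i * x i = 0) (haN : ∀ j, ∑ i, a i * N i j = 0) (j : Fin n) :
    ∑ i, a i * other M N j x i = 0 := by
  have e : ∀ i, a i * other M N j x i =
      bil M (fun l => N l j) (fun l => N l j) * (a i * x i) +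
        (-2 * bil M x (fun l => N l j)) * (a i * N i j) := fun i => by
    simp only [other]
    ring
  rw [Finset.sum_congr rfl fun i _ => e i, Finset.sum_add_distrib, ← Finset.mul_sum,
    ← Finset.mul_sum, ha, haN, mul_zero, mul_zero, add_zero]

theorem pr_smul (c : R) (x x' : Fin n → R) (i j : Fin n) :
    pr x (fun l => c * x' l) i j = c * pr x x' i j := by
  simp only [pr, Matrix.of_apply]
  ring

/-- Over a field: the second point of a line on a quadric, as soon as `gram M N` is not zero. -/
theorem exists_other {k : Type*} [Field k] {M N : Matrix (Fin n) (Fin n) k}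
    (hM : ∀ i j, M i j = M j i) {x : Fin n → k} (h : IsLine N x) (hx0 : x ≠ 0)
    (hx : bil M x x = 0) (hG : gram M N ≠ 0) :
    ∃ x' : Fin n → k, x' ≠ 0 ∧ bil M x' x' = 0 ∧ gram M N = pr x x' ∧
      ∀ a : Fin n → k, ∑ i, a i * x i = 0 → (∀ j, ∑ i, a i * N i j = 0) →
        ∑ i, a i * x' i = 0 := by
  obtain ⟨j, hj⟩ : ∃ j, x j ≠ 0 := by
    by_contra hc
    push Not at hc
    exact hx0 (funext hc)
  have hj2 : (x j ^ 2)⁻¹ * x j ^ 2 = 1 := inv_mul_cancel₀ (pow_ne_zero 2 hj)
  have hpr : gram M N = pr x (fun l => (x j ^ 2)⁻¹ * other M N j x l) := by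
    ext i l
    rw [pr_smul, ← sq_mul_gram hM h hx j i l, ← mul_assoc, hj2, one_mul]
  refine ⟨fun l => (x j ^ 2)⁻¹ * other M N j x l, ?_, ?_, hpr, ?_⟩
  · intro h0
    apply hG
    rw [hpr, h0]
    ext i l
    simp [pr]
  · have e := bil_lin M ((x j ^ 2)⁻¹) 0 ((x j ^ 2)⁻¹) 0 (other M N j x) x (other M N j x) x
    simp only [zero_mul, add_zero, mul_zero] at e
    rw [e, bil_other hM hx, mul_zero]
  · intro a ha haN
    have e := dot_other (M := M) a ha haN j
    calc ∑ i, a i * ((x j ^ 2)⁻¹ * other M N j x i)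
        = (x j ^ 2)⁻¹ * ∑ i, a i * other M N j x i := by
          rw [Finset.mul_sum]
          exact Finset.sum_congr rfl fun i _ => by ring
      _ = 0 := by rw [e, mul_zero]

/-- The matrix of `ξ ↦ a × ξ`. -/
def N3 (a : Fin 3 → R) : Matrix (Fin 3) (Fin 3) R :=
  !![0, -a 2, a 1; a 2, 0, -a 0; -a 1, a 0, 0]

theorem isLine_N3 (a x : Fin 3 → R) (h : ∑ i, a i * x i = 0) : IsLine (N3 a) x := by
  rw [Fin.sum_univ_three] at h
  constructor
  · intro i j
    fin_cases i <;> fin_cases j <;> simp [N3]
  · intro i j l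
    fin_cases i <;> fin_cases j <;> fin_cases l <;>
      simp [N3] <;> first | ring1 | linear_combination h | linear_combination -h

theorem dot_N3 (a : Fin 3 → R) (j : Fin 3) : ∑ i, a i * N3 a i j = 0 := by
  rw [Fin.sum_univ_three]
  fin_cases j <;> simp [N3] <;> ring

/-- The Pluecker coordinates of two covectors. -/
def plk (a b : Fin 4 → R) (i j : Fin 4) : R := a i * b j - a j * b i

/-- The matrix of `ξ ↦ a × b × ξ`. -/
def N4 (a b : Fin 4 → R) : Matrix (Fin 4) (Fin 4) R :=
  !![0, plk a b 2 3, -plk a b 1 3, plk a b 1 2;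
    -plk a b 2 3, 0, plk a b 0 3, -plk a b 0 2;
    plk a b 1 3, -plk a b 0 3, 0, plk a b 0 1;
    -plk a b 1 2, plk a b 0 2, -plk a b 0 1, 0]

theorem isLine_N4 (a b x : Fin 4 → R) (ha : ∑ i, a i * x i = 0) (hb : ∑ i, b i * x i = 0) :
    IsLine (N4 a b) x := by
  rw [Fin.sum_univ_four] at ha hb
  constructor
  · intro i j
    fin_cases i <;> fin_cases j <;> simp [N4]
  · intro i j l
    fin_cases i <;> fin_cases j <;> fin_cases l <;>
      simp [N4, plk] <;> first
        | ring1
        | linear_combination b 0 * ha - a 0 * hb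
        | linear_combination a 0 * hb - b 0 * ha
        | linear_combination b 1 * ha - a 1 * hb
        | linear_combination a 1 * hb - b 1 * ha
        | linear_combination b 2 * ha - a 2 * hb
        | linear_combination a 2 * hb - b 2 * ha
        | linear_combination b 3 * ha - a 3 * hb
        | linear_combination a 3 * hb - b 3 * ha

theorem dot_N4_left (a b : Fin 4 → R) (j : Fin 4) : ∑ i, a i * N4 a b i j = 0 := by
  rw [Fin.sum_univ_four]
  fin_cases j <;> simp [N4, plk] <;> ring

theorem dot_N4_right (a b : Fin 4 → R) (j : Fin 4) : ∑ i, b i * N4 a b i j = 0 := by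
  rw [Fin.sum_univ_four]
  fin_cases j <;> simp [N4, plk] <;> ring

end Pool.Agent.Helper37.RP
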