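import Pool.Agent.Helper37.RP.Pr2

/-!
# The pair of points over an algebraically closed field
-/

namespace Pool.Agent.Helper37.RP

open Matrix MvPolynomial

variable {n : ℕ} {k : Type*} [Field k]

theorem exists_quad_zero [IsAlgClosed k] (a b c : k) : ∃ s t : k, (s ≠ 0 ∨ t ≠ 0) ∧
    a * s ^ 2 + b * (s * t) + c * t ^ 2 = 0 := by
  by_cases ha : a = 0
  · exact ⟨1, 0, Or.inl one_ne_zero, by rw [ha]; ring⟩
  · obtain ⟨z, hz⟩ := IsAlgClosed.exists_eval₂_eq_zero (RingHom.id k)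
      (Polynomial.C a * Polynomial.X ^ 2 + Polynomial.C b * Polynomial.X + Polynomial.C c)
      (by
        rw [Polynomial.degree_quadratic ha]
        decide)
    refine ⟨z, 1, Or.inr one_ne_zero, ?_⟩
    simp only [Polynomial.eval₂_add, Polynomial.eval₂_mul, Polynomial.eval₂_C,
      Polynomial.eval₂_pow, Polynomial.eval₂_X, RingHom.id_apply] at hz
    linear_combination hz

/-- An antisymmetric matrix with zero diagonal whose columns are all multiples of one column is zero. -/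
theorem exists_indep {N : Matrix (Fin n) (Fin n) k} (hanti : ∀ i j, N i j = -N j i)
    (hdiag : ∀ i, N i i = 0) (hN : N ≠ 0) :
    ∃ j l : Fin n, ∀ s t : k, (∀ i, s * N i j + t * N i l = 0) → s = 0 ∧ t = 0 := by
  obtain ⟨i, j, hij⟩ : ∃ i j, N i j ≠ 0 := by
    by_contra h
    push Not at h
    exact hN (by ext i j; exact h i j)
  refine ⟨i, j, fun s t h => ?_⟩
  have h1 := h i
  have h2 := h j
  rw [hdiag, mul_zero, zero_add] at h1
  rw [hdiag, mul_zero, add_zero, hanti j i] at h2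
  constructor
  · rcases mul_eq_zero.mp h2 with h3 | h3
    · exact h3
    · exact absurd (neg_eq_zero.mp h3) hij
  · rcases mul_eq_zero.mp h1 with h3 | h3
    · exact h3
    · exact absurd h3 hij

/-- A point of the line which lies on the quadric. -/
theorem exists_pt [IsAlgClosed k] {M N : Matrix (Fin n) (Fin n) k} (hM : ∀ i j, M i j = M j i)
    (hanti : ∀ i j, N i j = -N j i) (hdiag : ∀ i, N i i = 0) (hN : N ≠ 0) :
    ∃ x : Fin n → k, x ≠ 0 ∧ bil M x x = 0 ∧
      ∀ a : Fin n → k, (∀ j, ∑ i, a i * N i j = 0) → ∑ i, a i * x i = 0 := by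
  obtain ⟨j, l, hjl⟩ := exists_indep hanti hdiag hN
  obtain ⟨s, t, hst, h0⟩ := exists_quad_zero (bil M (fun i => N i j) (fun i => N i j))
    (2 * bil M (fun i => N i j) (fun i => N i l)) (bil M (fun i => N i l) (fun i => N i l))
  refine ⟨fun i => s * N i j + t * N i l, ?_, ?_, ?_⟩
  · intro h
    obtain ⟨h1, h2⟩ := hjl s t (fun i => congrFun h i)
    rcases hst with h3 | h3
    · exact h3 h1
    · exact h3 h2
  · rw [bil_lin, bil_comm hM (fun i => N i l) (fun i => N i j)]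
    linear_combination h0
  · intro a ha
    have e : ∀ i, a i * (s * N i j + t * N i l) = s * (a i * N i j) + t * (a i * N i l) :=
      fun i => by ring
    rw [Finset.sum_congr rfl fun i _ => e i, Finset.sum_add_distrib, ← Finset.mul_sum,
      ← Finset.mul_sum, ha, ha, mul_zero, mul_zero, add_zero]

theorem gram_zero (M : Matrix (Fin n) (Fin n) k) : gram M 0 = 0 := by
  ext i j
  simp [gram]

/-- Every `y` with `G_y ≠ 0` has two points `x`, `x'` over it (`n = 3`). -/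
theorem exists_pair3 [IsAlgClosed k] (L : Matrix (Fin 3) (Fin 3) k)
    (Q : Fin 3 → Fin 3 → Fin 3 → Fin 3 → k) (hQ : ∀ i j k l, Q i j k l = Q j i k l)
    (y : Fin 3 → k) (hG : ∃ i j, aeval y (chow3 L Q i j) ≠ 0) :
    ∃ x x' : Fin 3 → k, x ≠ 0 ∧ x' ≠ 0 ∧ OnL L x y ∧ OnQ Q x y ∧ OnL L x' y ∧ OnQ Q x' y ∧
      ∀ i j, aeval y (chow3 L Q i j) = x i * x' j + x j * x' i := by
  have hN : (N3 fun i => aeval y (lin L i)) ≠ 0 := by
    intro h
    obtain ⟨i, j, hij⟩ := hG
    rw [aeval_chow3, h, gram_zero] at hij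
    exact hij rfl
  obtain ⟨x, hx0, hx1, hx2⟩ := exists_pt (quad_symm Q hQ y)
    (fun i j => by fin_cases i <;> fin_cases j <;> simp [N3])
    (fun i => by fin_cases i <;> simp [N3]) hN
  have hL : OnL L x y := by
    rw [onL_iff]
    exact hx2 _ (dot_N3 _)
  have hq : OnQ Q x y := by
    rw [onQ_iff]
    exact hx1
  obtain ⟨x', h1, h2, h3, h4⟩ := exists_other3 L Q hQ x y hx0 hL hq hG
  exact ⟨x, x', hx0, h1, hL, hq, h2, h3, h4⟩

/-- Every `y` with `G_y ≠ 0` has two points `x`, `x'` over it (`n = 4`). -/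
theorem exists_pair4 [IsAlgClosed k] (L L' : Matrix (Fin 4) (Fin 4) k)
    (Q : Fin 4 → Fin 4 → Fin 4 → Fin 4 → k) (hQ : ∀ i j k l, Q i j k l = Q j i k l)
    (y : Fin 4 → k) (hG : ∃ i j, aeval y (chow4 L L' Q i j) ≠ 0) :
    ∃ x x' : Fin 4 → k, x ≠ 0 ∧ x' ≠ 0 ∧ OnL L x y ∧ OnL L' x y ∧ OnQ Q x y ∧ OnL L x' y ∧
      OnL L' x' y ∧ OnQ Q x' y ∧ ∀ i j, aeval y (chow4 L L' Q i j) = x i * x' j + x j * x' i := by
  have hN : (N4 (fun i => aeval y (lin L i)) (fun i => aeval y (lin L' i))) ≠ 0 := by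
    intro h
    obtain ⟨i, j, hij⟩ := hG
    rw [aeval_chow4, h, gram_zero] at hij
    exact hij rfl
  obtain ⟨x, hx0, hx1, hx2⟩ := exists_pt (quad_symm Q hQ y)
    (fun i j => by fin_cases i <;> fin_cases j <;> simp [N4])
    (fun i => by fin_cases i <;> simp [N4]) hN
  have hL : OnL L x y := by
    rw [onL_iff]
    exact hx2 _ (dot_N4_left _ _)
  have hL' : OnL L' x y := by
    rw [onL_iff]
    exact hx2 _ (dot_N4_right _ _)
  have hq : OnQ Q x y := by
    rw [onQ_iff]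
    exact hx1
  obtain ⟨x', h1, h2, h3, h4, h5⟩ := exists_other4 L L' Q hQ x y hx0 hL hL' hq hG
  exact ⟨x, x', hx0, h1, hL, hL', hq, h2, h3, h4, h5⟩

end Pool.Agent.Helper37.RP
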