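import Pool.Agent.Helper37.RP.Pr2

/-!
# The second point over a commutative ring, normalised

`x j = 1`, `t = N e_j` (so `t j = 0`), `q(t) u = 1`: the second point is `x - 2 M(x, t) u t`.
-/

namespace Pool.Agent.Helper37.RP

open Matrix MvPolynomial

variable {R : Type*} [CommRing R] {n : ℕ}

/-- The normalised second point. -/
def refl (M N : Matrix (Fin n) (Fin n) R) (j : Fin n) (u : R) (x : Fin n → R) : Fin n → R :=
  fun i => x i - 2 * bil M x (fun l => N l j) * u * N i j

theorem refl_apply_self (M N : Matrix (Fin n) (Fin n) R) (j : Fin n) (u : R) (x : Fin n → R)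
    (hN : N j j = 0) : refl M N j u x j = x j := by
  simp only [refl, hN, mul_zero, sub_zero]

theorem other_eq_refl (M N : Matrix (Fin n) (Fin n) R) (j : Fin n) (u : R) (x : Fin n → R)
    (hu : bil M (fun l => N l j) (fun l => N l j) * u = 1) :
    other M N j x = fun i => bil M (fun l => N l j) (fun l => N l j) * refl M N j u x i := by
  funext i
  simp only [other, refl]
  linear_combination (2 * bil M x (fun l => N l j) * N i j) * hu

theorem gram_eq_refl {M N : Matrix (Fin n) (Fin n) R} (hM : ∀ i j, M i j = M j i)
    {x : Fin n → R} (h : IsLine N x) (hx : bil M x x = 0) (j : Fin n) (hj : x j = 1) (u : R)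
    (hu : bil M (fun l => N l j) (fun l => N l j) * u = 1) (k l : Fin n) :
    gram M N k l = bil M (fun l => N l j) (fun l => N l j) * pr x (refl M N j u x) k l := by
  have h1 := sq_mul_gram hM h hx j k l
  rw [hj, one_pow, one_mul, other_eq_refl M N j u x hu, pr_smul] at h1
  exact h1

theorem bil_refl {M N : Matrix (Fin n) (Fin n) R} (hM : ∀ i j, M i j = M j i)
    {x : Fin n → R} (hx : bil M x x = 0) (j : Fin n) (u : R)
    (hu : bil M (fun l => N l j) (fun l => N l j) * u = 1) :
    bil M (refl M N j u x) (refl M N j u x) = 0 := by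
  have e : refl M N j u x = fun i => 1 * x i + (-2 * bil M x (fun l => N l j) * u) * N i j := by
    funext i
    simp only [refl]
    ring
  rw [e, bil_lin, hx, bil_comm hM (fun l => N l j) x]
  linear_combination (4 * bil M x (fun l => N l j) ^ 2 * u) * hu

theorem dot_refl {M N : Matrix (Fin n) (Fin n) R} {x : Fin n → R} (a : Fin n → R)
    (ha : ∑ i, a i * x i = 0) (j : Fin n) (haN : ∑ i, a i * N i j = 0) (u : R) :
    ∑ i, a i * refl M N j u x i = 0 := by
  have e : ∀ i, a i * refl M N j u x i =
      a i * x i - (2 * bil M x (fun l => N l j) * u) * (a i * N i j) := fun i => by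
    simp only [refl]
    ring
  rw [Finset.sum_congr rfl fun i _ => e i, Finset.sum_sub_distrib, ← Finset.mul_sum, ha, haN,
    mul_zero, sub_zero]

theorem refl_refl {M N : Matrix (Fin n) (Fin n) R} {x : Fin n → R} (j : Fin n) (u : R)
    (hu : bil M (fun l => N l j) (fun l => N l j) * u = 1) :
    refl M N j u (refl M N j u x) = x := by
  have e : refl M N j u x = fun i => 1 * x i + (-2 * bil M x (fun l => N l j) * u) * N i j := by
    funext i
    simp only [refl]
    ring
  have e1 : bil M (refl M N j u x) (fun l => N l j) =
      bil M x (fun l => N l j) - 2 * bil M x (fun l => N l j) * u *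
        bil M (fun l => N l j) (fun l => N l j) := by
    have e2 := bil_lin M 1 (-2 * bil M x (fun l => N l j) * u) 1 0 x (fun l => N l j)
      (fun l => N l j) (fun l => N l j)
    rw [← e] at e2
    have e3 : (fun i => 1 * N i j + 0 * N i j) = fun l => N l j := by
      funext i
      ring
    rw [e3] at e2
    rw [e2]
    ring
  funext i
  show refl M N j u x i - 2 * bil M (refl M N j u x) (fun l => N l j) * u * N i j = x i
  rw [e1]
  simp only [refl]
  linear_combination (4 * bil M x (fun l => N l j) * u * N i j) * hu

theorem map_refl {S : Type*} [CommRing S] (f : R →+* S) (M N : Matrix (Fin n) (Fin n) R)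
    (j : Fin n) (u : R) (x : Fin n → R) (i : Fin n) :
    f (refl M N j u x i) = refl (M.map f) (N.map f) j (f u) (fun i => f (x i)) i := by
  simp only [refl, map_sub, map_mul, map_bil, map_ofNat, Matrix.map_apply]

end Pool.Agent.Helper37.RP
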